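import Pool.Agent.N162.HN.MainB
import Pool.Agent.N162.HN.Top
import Pool.Agent.N162.GP.Sep
import Pool.Agent.N145.SX.All3
import Pool.Agent.R882.HYM

/-!
The images of smooth complete intersections of small degree: of general type, or unirational (only for
hypersurfaces).
-/

set_option autoImplicit false
set_option linter.overlappingInstances false

open FF MvPolynomial Pool.Agent.W602.GT
open Pool.Agent.W619.PQ (IsUniruled)
open Pool.Agent.N162.GP (SmoothCI LowDegree)

namespace Pool.Agent.U190.HG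

/-- images of varieties of low degree are of general type -/
theorem gt_low {M n m D N : ℕ} {K : Type} [Field K] [Algebra ℂ K] {x : Fin (M + 2) → K}
    (h : LowDegree n m D x) (hM : 1 ≤ M) (hm : 7 * N + 4 ≤ m)
    (hN : (M + 1) * N < m + M + 2) (hD : D + N ≤ m + 2)
    (L : Type) [Field L] [Algebra ℂ L] [Algebra L K] [IsScalarTower ℂ L K] [FiniteDimensional L K]
    (hr : 2 * Module.finrank L K < (N + 1) * (m + 2 - N)) : GeneralType ℂ L n := by
  classical
  haveI : Algebra.EssFiniteType ℂ K := by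
    rw [← IntermediateField.fg_top_iff]
    exact ⟨Finset.univ.image x, by
      rw [Finset.coe_image, Finset.coe_univ, Set.image_univ, h.gen]⟩
  obtain ⟨z, e, hz, he⟩ := Pool.Agent.Y172.exists_crd (k := ℂ) (K := K) h.dim
  have hsep := Pool.Agent.N162.GP.sepX_low Pool.Agent.N162.GP.fINX h hM hm hN hD hz he
    (fun _ => False)
  have hL : Algebra.trdeg ℂ L = n := Pool.Agent.Y184.NT.trdeg_below (K := K) h.dim
  exact (Pool.Agent.N145.SX.kodGe_iff hL).1
    (Pool.Agent.N277.SX.GT L K n h.dim z hz _ hsep hr)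

/-- the gradient of the equation of a smooth hypersurface does not vanish -/
theorem grad_ne {k d : ℕ} (hd : 0 < d) {F : MvPolynomial (Fin (k + 1)) ℂ} (hF : F.IsHomogeneous d)
    (hs : ∀ z : Fin (k + 1) → ℂ, z ≠ 0 → eval z F = 0 → ∃ l, eval z (pderiv l F) ≠ 0)
    (z : Fin (k + 1) → ℂ) (hz : z ≠ 0) : ∃ l, eval z (pderiv l F) ≠ 0 := by
  by_contra hne
  push Not at hne
  have h1 := hF.sum_X_mul_pderiv
  have h2 := congrArg (eval z) h1
  rw [map_sum, map_nsmul] at h2
  have h3 : eval z F = 0 := by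
    have h4 : (0 : ℂ) = d • eval z F := by
      rw [← h2]
      symm
      refine Finset.sum_eq_zero fun i _ => ?_
      rw [map_mul, hne i, mul_zero]
    rw [nsmul_eq_mul] at h4
    rcases mul_eq_zero.1 h4.symm with h5 | h5
    · exact absurd h5 (by exact_mod_cast hd.ne')
    · exact h5
  obtain ⟨l, hl⟩ := hs z hz h3
  exact hl (hne l)

/-- **Images of smooth complete intersections.** -/
theorem dichotomy {M n q m N : ℕ} (hn : 1 ≤ n) (hq : n + q = M + 1) {K : Type} [Field K]
    [Algebra ℂ K] (hK : Algebra.trdeg ℂ K = n) {F : Fin q → MvPolynomial (Fin (M + 2)) ℂ}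
    {d : Fin q → ℕ} {x : Fin (M + 2) → K} (hV : SmoothCI F d x) (hm : m + M + 2 = ∑ i, d i)
    (h7 : 7 * N + 4 ≤ m) (hN : (M + 1) * N < m + M + 2)
    (hD : (q = 1 ∧ 3 * (N + n - 1) < m + M + 2) ∨ ∀ i, d i + N ≤ m + 2)
    (L : Type) [Field L] [Algebra ℂ L] [Algebra L K] [IsScalarTower ℂ L K] [FiniteDimensional L K]
    (hr : 2 * Module.finrank L K < (N + 1) * (m + 2 - N)) :
    GeneralType ℂ L n ∨ (q = 1 ∧ Nonempty (L →ₐ[ℂ] FractionRing (MvPolynomial (Fin n) ℂ))) := by
  classical
  rcases hD with ⟨h1, h3⟩ | hD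
  · subst h1
    obtain rfl : M = n := by omega
    by_cases hg : GeneralType ℂ L M
    · exact Or.inl hg
    refine Or.inr ⟨rfl, ?_⟩
    have hd0 : d 0 = m + M + 2 := by rw [hm]; simp
    refine Pool.Agent.N162.HN.mainG (F := F 0) (x := x) hn rfl h7 hN h3 ?_ (by
      rw [← hd0]; exact hV.hom 0) hV.one ?_ hV.gen hK L hr hg
    · refine grad_ne (d := d 0) (by omega) (hV.hom 0) fun z hz h0 => ?_
      have h4 := hV.smooth z hz (fun i => by
        rw [Subsingleton.elim i 0]; exact h0)
      by_contra hne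
      push Not at hne
      exact h4.ne_zero 0 (funext fun l => hne l)
    · exact (hV.generic (d 0) (F 0) (hV.hom 0)).2
        (Ideal.le_radical (Ideal.subset_span ⟨0, rfl⟩))
  · left
    have hq2 : 2 ≤ q := by
      rcases Nat.lt_or_ge q 2 with h | h
      · interval_cases q
        · simp at hm
        · have h5 := hD 0
          have h6 : d 0 = m + M + 2 := by rw [hm]; simp
          omega
      · exact h
    have hlow : LowDegree n m (m + 2 - N) x :=
      Pool.Agent.N162.GP.lowDegree_of_smoothCI Pool.Agent.N162.GP.fCIC Pool.Agent.N162.GP.fCIA hV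
        hn hK hq hm (fun i => by have := hD i; omega) (by omega)
    exact gt_low hlow (by omega) h7 hN (by omega) L hr

/-- the function field of an image is finitely generated -/
theorem ess_image {M q : ℕ} {K : Type} [Field K] [Algebra ℂ K]
    {F : Fin q → MvPolynomial (Fin (M + 2)) ℂ} {d : Fin q → ℕ} {x : Fin (M + 2) → K}
    (hV : SmoothCI F d x) (L : Type) [Field L] [Algebra ℂ L] [Algebra L K] [IsScalarTower ℂ L K]
    [FiniteDimensional L K] : Algebra.EssFiniteType ℂ L := by
  classical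
  have hessK : Algebra.EssFiniteType ℂ K := by
    rw [← IntermediateField.fg_top_iff]
    exact ⟨Finset.univ.image x, by
      rw [Finset.coe_image, Finset.coe_univ, Set.image_univ, hV.gen]⟩
  exact Pool.Agent.TH466.QG.ess_below (K := K)

/-- the equivalences -/
theorem tfae_dich {L : Type} [Field L] [Algebra ℂ L] [Algebra.EssFiniteType ℂ L] {n : ℕ}
    (hn : 1 ≤ n) (hL : Algebra.trdeg ℂ L = n)
    (hd : GeneralType ℂ L n ∨ Nonempty (L →ₐ[ℂ] FractionRing (MvPolynomial (Fin n) ℂ))) :
    [Psef ℂ L n (fun _ => False), GeneralType ℂ L n, ¬ IsUniruled ℂ L n,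
      ¬ Nonempty (L →ₐ[ℂ] FractionRing (MvPolynomial (Fin n) ℂ))].TFAE := by
  tfae_have 4 → 2 := fun h => hd.resolve_right h
  tfae_have 2 → 1 := fun h => psef_of_kodGe (Pool.Agent.R882.WR.kod_of_gt h)
  tfae_have 1 → 3 := fun h h' => (Pool.Agent.W619.Y.uniruled_neg n hL h').1
    ((Pool.Agent.TH466.QG.psef_iff n).1 h)
  tfae_have 3 → 4 := fun h h' => h (Pool.Agent.R882.HQ.uniruled_of_unirational hn h')
  tfae_finish

end Pool.Agent.U190.HG
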